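import Mathlib
import Pool.Agent.H590.NL.Stm

/-!
# KM: compound Poisson mixtures (helper80, for helper590)
-/

set_option autoImplicit false

open MeasureTheory Filter Topology Set
open scoped BigOperators ENNReal

namespace H80NL

/-- the point mass at `b` convolved with the `j`-fold convolution of `L` -/
noncomputable def Lj (L : Measure ℝ) (b : ℝ) : ℕ → Measure ℝ
  | 0 => Measure.dirac b
  | j + 1 => (Lj L b j).conv L

variable {L : Measure ℝ} [IsFiniteMeasure L] {b : ℝ}

instance fin_Lj (j : ℕ) : IsFiniteMeasure (Lj L b j) := by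
  induction j with
  | zero =>
    unfold Lj
    infer_instance
  | succ j ih =>
    unfold Lj
    infer_instance

theorem ae_Lj (hL : ∀ᵐ z ∂L, 0 ≤ z) (j : ℕ) : ∀ᵐ a ∂(Lj L b j), b ≤ a := by
  induction j with
  | zero =>
    unfold Lj
    rw [ae_dirac_eq]
    exact Filter.eventually_pure.2 (le_refl b)
  | succ j ih =>
    have h1 : ∀ᵐ z ∂((Lj L b j).prod L), b ≤ z.1 :=
      Measure.quasiMeasurePreserving_fst.ae ih
    have h2 : ∀ᵐ z ∂((Lj L b j).prod L), 0 ≤ z.2 :=
      Measure.quasiMeasurePreserving_snd.ae hL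
    unfold Lj
    unfold Measure.conv
    rw [ae_map_iff (by fun_prop) (measurableSet_Ici : MeasurableSet (Ici b))]
    filter_upwards [h1, h2] with z h3 h4
    show b ≤ z.1 + z.2
    linarith

theorem E_Lj (r : ℝ) (j : ℕ) : ∫⁻ a, ENNReal.ofReal (Real.exp (-(a * r))) ∂(Lj L b j) =
    ENNReal.ofReal (Real.exp (-(b * r))) * (∫⁻ z, ENNReal.ofReal (Real.exp (-(z * r))) ∂L) ^ j := by
  induction j with
  | zero =>
    unfold Lj
    rw [lintegral_dirac' _ (by fun_prop), pow_zero, mul_one]
  | succ j ih =>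
    unfold Lj
    rw [Measure.lintegral_conv (by fun_prop)]
    have h1 : ∀ x y : ℝ, ENNReal.ofReal (Real.exp (-((x + y) * r))) =
        ENNReal.ofReal (Real.exp (-(x * r))) * ENNReal.ofReal (Real.exp (-(y * r))) := by
      intro x y
      rw [← ENNReal.ofReal_mul (Real.exp_pos _).le, ← Real.exp_add]
      congr 2
      ring
    simp only [h1]
    have h2 : ∀ x : ℝ, ∫⁻ y, ENNReal.ofReal (Real.exp (-(x * r))) *
        ENNReal.ofReal (Real.exp (-(y * r))) ∂L = ENNReal.ofReal (Real.exp (-(x * r))) *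
        ∫⁻ y, ENNReal.ofReal (Real.exp (-(y * r))) ∂L := fun x =>
      lintegral_const_mul _ (by fun_prop)
    simp only [h2]
    rw [lintegral_mul_const _ (by fun_prop), ih, pow_succ, mul_assoc]

/-- `d 0 = 0`, `d (j + 1) = d j * A + A ^ j` -/
theorem M_Lj (hL : ∀ᵐ z ∂L, 0 ≤ z) (hb : 0 < b) (r : ℝ) (j : ℕ) :
    ∫⁻ a, ENNReal.ofReal a * ENNReal.ofReal (Real.exp (-(a * r))) ∂(Lj L b j) =
    ENNReal.ofReal (Real.exp (-(b * r))) *
      (ENNReal.ofReal b * (∫⁻ z, ENNReal.ofReal (Real.exp (-(z * r))) ∂L) ^ j +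
        (j : ℝ≥0∞) * (∫⁻ z, ENNReal.ofReal z * ENNReal.ofReal (Real.exp (-(z * r))) ∂L) *
          (∫⁻ z, ENNReal.ofReal (Real.exp (-(z * r))) ∂L) ^ (j - 1)) := by
  set A := ∫⁻ z, ENNReal.ofReal (Real.exp (-(z * r))) ∂L with hA
  set B := ∫⁻ z, ENNReal.ofReal z * ENNReal.ofReal (Real.exp (-(z * r))) ∂L with hB
  induction j with
  | zero =>
    unfold Lj
    rw [lintegral_dirac' _ (by fun_prop)]
    simp only [pow_zero, mul_one, Nat.cast_zero, zero_mul, add_zero]
    ring
  | succ j ih =>
    unfold Lj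
    rw [Measure.lintegral_conv (by fun_prop)]
    have h1 : ∀ᵐ x ∂(Lj L b j), ∫⁻ y, ENNReal.ofReal (x + y) *
        ENNReal.ofReal (Real.exp (-((x + y) * r))) ∂L =
        (ENNReal.ofReal x * ENNReal.ofReal (Real.exp (-(x * r)))) * A +
          ENNReal.ofReal (Real.exp (-(x * r))) * B := by
      filter_upwards [ae_Lj hL j] with x hx
      have h2 : ∫⁻ y, ENNReal.ofReal (x + y) *
          ENNReal.ofReal (Real.exp (-((x + y) * r))) ∂L = ∫⁻ y,
          ((ENNReal.ofReal x * ENNReal.ofReal (Real.exp (-(x * r)))) *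
            ENNReal.ofReal (Real.exp (-(y * r))) +
          ENNReal.ofReal (Real.exp (-(x * r))) *
            (ENNReal.ofReal y * ENNReal.ofReal (Real.exp (-(y * r))))) ∂L := by
        refine lintegral_congr_ae ?_
        filter_upwards [hL] with y hy
        rw [ENNReal.ofReal_add (by linarith) hy]
        have h3 : ENNReal.ofReal (Real.exp (-((x + y) * r))) =
            ENNReal.ofReal (Real.exp (-(x * r))) * ENNReal.ofReal (Real.exp (-(y * r))) := by
          rw [← ENNReal.ofReal_mul (Real.exp_pos _).le, ← Real.exp_add]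
          congr 2
          ring
        rw [h3]
        ring
      rw [h2, lintegral_add_left (by fun_prop), lintegral_const_mul _ (by fun_prop),
        lintegral_const_mul _ (by fun_prop)]
    rw [lintegral_congr_ae h1, lintegral_add_left (by fun_prop),
      lintegral_mul_const _ (by fun_prop), lintegral_mul_const _ (by fun_prop), ih, E_Lj, ← hA]
    rcases Nat.eq_zero_or_pos j with rfl | hj
    · simp
      ring
    · obtain ⟨i, rfl⟩ : ∃ i, j = i + 1 := ⟨j - 1, by omega⟩
      simp only [Nat.add_sub_cancel]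
      push_cast
      ring

theorem hs_exp (x : ℝ) : HasSum (fun n : ℕ => x ^ n / (n.factorial : ℝ)) (Real.exp x) := by
  rw [Real.exp_eq_exp_ℝ]
  exact NormedSpace.expSeries_div_hasSum_exp x

theorem hs_d (x : ℝ) :
    HasSum (fun n : ℕ => (n : ℝ) * x ^ (n - 1) / (n.factorial : ℝ)) (Real.exp x) := by
  have h1 := (hasSum_nat_add_iff (f := fun n : ℕ => (n : ℝ) * x ^ (n - 1) / (n.factorial : ℝ)) 1
    (g := Real.exp x)).1 ?_
  · simpa using h1
  · refine (hs_exp x).congr_fun ?_
    intro n
    simp only [Nat.add_sub_cancel]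
    rw [Nat.factorial_succ]
    have : ((n + 1 : ℕ) : ℝ) ≠ 0 := by positivity
    push_cast at this ⊢
    field_simp

theorem KM : H590NL.S_KM := by
  intro L _ b z0 z1 hb hz0 hz01 hL
  have hLI : ∀ᵐ z ∂L, z ∈ Icc z0 z1 := by
    rw [ae_iff]
    exact hL
  have hL0 : ∀ᵐ z ∂L, 0 ≤ z := hLI.mono fun z hz => hz0.le.trans hz.1
  set l : ℝ := (L univ).toReal with hl
  let c : ℕ → ℝ≥0∞ := fun j => ENNReal.ofReal (Real.exp (-l) / (j.factorial : ℝ))
  let ν : Measure ℝ := Measure.sum fun j => c j • Lj L b j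
  have hlin : ∀ f : ℝ → ℝ≥0∞, ∫⁻ a, f a ∂ν = ∑' j, c j * ∫⁻ a, f a ∂(Lj L b j) := by
    intro f
    change ∫⁻ a, f a ∂(Measure.sum fun j => c j • Lj L b j) = _
    rw [lintegral_sum_measure]
    refine tsum_congr fun j => ?_
    rw [lintegral_smul_measure]
    rfl
  have hAi : ∀ r : ℝ, 0 ≤ r → Integrable (fun z => Real.exp (-(z * r))) L := by
    intro r hr
    refine Integrable.of_bound (by fun_prop) 1 ?_
    filter_upwards [hL0] with z hz
    rw [Real.norm_of_nonneg (Real.exp_pos _).le]
    exact Real.exp_le_one_iff.2 (by nlinarith)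
  have hBi : ∀ r : ℝ, 0 ≤ r → Integrable (fun z => z * Real.exp (-(z * r))) L := by
    intro r hr
    refine Integrable.of_bound (by fun_prop) z1 ?_
    filter_upwards [hL0, hLI] with z hz hz2
    rw [norm_mul, Real.norm_of_nonneg (Real.exp_pos _).le, Real.norm_of_nonneg hz]
    have h1 : Real.exp (-(z * r)) ≤ 1 := Real.exp_le_one_iff.2 (by nlinarith)
    have h2 : z * Real.exp (-(z * r)) ≤ z * 1 := mul_le_mul_of_nonneg_left h1 hz
    linarith [hz2.2]
  set A : ℝ → ℝ := fun r => ∫ z, Real.exp (-(z * r)) ∂L with hA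
  set B : ℝ → ℝ := fun r => ∫ z, z * Real.exp (-(z * r)) ∂L with hB
  have hA0 : ∀ r, 0 ≤ A r := fun r => integral_nonneg fun z => (Real.exp_pos _).le
  have hB0 : ∀ r, 0 ≤ B r := by
    intro r
    refine integral_nonneg_of_ae ?_
    filter_upwards [hL0] with z hz
    exact mul_nonneg hz (Real.exp_pos _).le
  have hAe : ∀ r : ℝ, 0 ≤ r → ∫⁻ z, ENNReal.ofReal (Real.exp (-(z * r))) ∂L =
      ENNReal.ofReal (A r) := by
    intro r hr
    exact (ofReal_integral_eq_lintegral_ofReal (hAi r hr)
      (Eventually.of_forall fun z => (Real.exp_pos _).le)).symm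
  have hBe : ∀ r : ℝ, 0 ≤ r → ∫⁻ z, ENNReal.ofReal z * ENNReal.ofReal (Real.exp (-(z * r))) ∂L =
      ENNReal.ofReal (B r) := by
    intro r hr
    have h1 := (ofReal_integral_eq_lintegral_ofReal (hBi r hr) (by
      filter_upwards [hL0] with z hz
      exact mul_nonneg hz (Real.exp_pos _).le)).symm
    rw [← h1]
    refine lintegral_congr_ae ?_
    filter_upwards [hL0] with z hz
    rw [ENNReal.ofReal_mul hz]
  -- the first transform
  have hE : ∀ r : ℝ, 0 ≤ r → ∫⁻ a, ENNReal.ofReal (Real.exp (-(a * r))) ∂ν =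
      ENNReal.ofReal (Real.exp (-l) * Real.exp (-(b * r)) * Real.exp (A r)) := by
    intro r hr
    have hs : HasSum (fun j : ℕ => Real.exp (-l) / (j.factorial : ℝ) *
        (Real.exp (-(b * r)) * A r ^ j))
        (Real.exp (-l) * Real.exp (-(b * r)) * Real.exp (A r)) := by
      refine ((hs_exp (A r)).mul_left (Real.exp (-l) * Real.exp (-(b * r)))).congr_fun ?_
      intro j
      ring
    rw [hlin, ← hs.tsum_eq, ENNReal.ofReal_tsum_of_nonneg (fun j => by
      have := hA0 r
      positivity) hs.summable]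
    refine tsum_congr fun j => ?_
    rw [E_Lj, hAe r hr, ENNReal.ofReal_mul (by positivity), ENNReal.ofReal_mul (by positivity),
      ENNReal.ofReal_pow (hA0 r)]
  have hM : ∀ r : ℝ, 0 ≤ r →
      ∫⁻ a, ENNReal.ofReal a * ENNReal.ofReal (Real.exp (-(a * r))) ∂ν =
      ENNReal.ofReal ((b + B r) * (Real.exp (-l) * Real.exp (-(b * r)) * Real.exp (A r))) := by
    intro r hr
    have hs : HasSum (fun j : ℕ => Real.exp (-l) / (j.factorial : ℝ) *
        (Real.exp (-(b * r)) * (b * A r ^ j + (j : ℝ) * B r * A r ^ (j - 1))))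
        ((b + B r) * (Real.exp (-l) * Real.exp (-(b * r)) * Real.exp (A r))) := by
      have h1 := ((hs_exp (A r)).mul_left (b * (Real.exp (-l) * Real.exp (-(b * r))))).add
        ((hs_d (A r)).mul_left (B r * (Real.exp (-l) * Real.exp (-(b * r)))))
      have e1 : b * (Real.exp (-l) * Real.exp (-(b * r))) * Real.exp (A r) +
          B r * (Real.exp (-l) * Real.exp (-(b * r))) * Real.exp (A r) =
          (b + B r) * (Real.exp (-l) * Real.exp (-(b * r)) * Real.exp (A r)) := by ring
      rw [e1] at h1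
      refine h1.congr_fun ?_
      intro j
      ring
    rw [hlin, ← hs.tsum_eq, ENNReal.ofReal_tsum_of_nonneg (fun j => by
      have := hA0 r
      have := hB0 r
      positivity) hs.summable]
    refine tsum_congr fun j => ?_
    have g1 := hA0 r
    have g2 := hB0 r
    rw [M_Lj hL0 hb, hAe r hr, hBe r hr, ENNReal.ofReal_mul (by positivity),
      ENNReal.ofReal_mul (by positivity), ENNReal.ofReal_add (by positivity) (by positivity),
      ENNReal.ofReal_mul hb.le, ENNReal.ofReal_mul (by positivity),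
      ENNReal.ofReal_mul (by positivity), ENNReal.ofReal_natCast, ENNReal.ofReal_pow g1,
      ENNReal.ofReal_pow g1]
  have hval : ∀ r : ℝ, 0 ≤ r → Real.exp (-l) * Real.exp (-(b * r)) * Real.exp (A r) =
      Real.exp (-(b * r + ∫ z, (1 - Real.exp (-(z * r))) ∂L)) := by
    intro r hr
    rw [integral_sub (integrable_const _) (hAi r hr), ← Real.exp_add, ← Real.exp_add]
    congr 1
    rw [integral_const, smul_eq_mul, mul_one]
    change -l + -(b * r) + A r = -(b * r + (l - A r))
    ring
  have hae : ∀ᵐ a ∂ν, b ≤ a := by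
    change ∀ᵐ a ∂(Measure.sum fun j => c j • Lj L b j), b ≤ a
    rw [Measure.ae_sum_iff]
    intro j
    exact Measure.ae_smul_measure (ae_Lj hL0 j) _
  have hprob : IsProbabilityMeasure ν := by
    refine ⟨?_⟩
    have h1 := hE 0 le_rfl
    have h2 := hval 0 le_rfl
    simp only [mul_zero, neg_zero, Real.exp_zero, sub_self, integral_zero, add_zero] at h2
    simp only [mul_zero, neg_zero, Real.exp_zero] at h1
    rw [h2, lintegral_const, ENNReal.ofReal_one, one_mul] at h1
    exact h1
  refine ⟨ν, hprob, hae, ?_, fun r hr => ?_, fun r hr => ?_⟩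
  · refine ⟨by fun_prop, ?_⟩
    rw [hasFiniteIntegral_iff_ofReal (by
      filter_upwards [hae] with a ha
      exact hb.le.trans ha)]
    have h1 := hM 0 le_rfl
    simp only [mul_zero, neg_zero, Real.exp_zero, ENNReal.ofReal_one, mul_one] at h1
    rw [h1]
    exact ENNReal.ofReal_lt_top
  · rw [integral_eq_lintegral_of_nonneg_ae (Eventually.of_forall fun a => (Real.exp_pos _).le)
      (by fun_prop), hE r hr, ENNReal.toReal_ofReal (by positivity), hval r hr]
  · have g1 := hB0 r
    rw [integral_eq_lintegral_of_nonneg_ae (by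
      filter_upwards [hae] with a ha
      exact mul_nonneg (hb.le.trans ha) (Real.exp_pos _).le) (by fun_prop)]
    have h1 : ∫⁻ a, ENNReal.ofReal (a * Real.exp (-(a * r))) ∂ν =
        ∫⁻ a, ENNReal.ofReal a * ENNReal.ofReal (Real.exp (-(a * r))) ∂ν := by
      refine lintegral_congr_ae ?_
      filter_upwards [hae] with a ha
      rw [ENNReal.ofReal_mul (hb.le.trans ha)]
    rw [h1, hM r hr, ENNReal.toReal_ofReal (by positivity), hval r hr]

end H80NL
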